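import Pool.Agent.BMP.ToCube
import Pool.Agent.Helper11.AAQuantities

/-!
The inequality of Q1 for block-multilinear functions of constant variance.

Proof (project BMP, paper proof in the headers of the modules): the potential `LL` = average over all sets `C` of
blocks of `∑_B c_B^2 ln(1 + D_C(B)/θ)`, where `D_C(B)` is the Fourier mass of the monomials sharing with `B` a
variable of a block of `C`. It is at most `V ln(1 + k M^2/θ)` and, for one block, at least
`(1/2) V ln(1/θ) - V ln(1/V)`; revealing a random block (out of `t`) at random increases it by at most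
`(C/t) V (1 + ln(1/V))`. The last fact is proved by testing `E f^2 ≤ 1` with product laws whose correlations in
each block are `e^(-D) sinh(η N + 6 η^2 O^2)`, `O = off N`, `N` = cleaned weighted Gram matrices of the block, and with
random signs on the popularity levels.
-/

namespace Pool.Agent.Results.MP_f992e4_an.BlockMultilinear

open Finset Pool.Agent.Helper11.AA

lemma variance_div {n : ℕ} (f : (Fin n → ℤˣ) → ℝ) (s : ℝ) :
    variance (fun x => f x / s) = variance f / s ^ 2 := by
  unfold variance
  have h1 : ∀ x, (f x / s) ^ 2 = f x ^ 2 / s ^ 2 := fun x => div_pow _ _ _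
  simp_rw [h1, ← Finset.sum_div]
  ring

/-- **Main result.** `β i` is the block of the variable `i`; every monomial of `f` contains exactly one
variable of each of the `k` blocks. -/
theorem result {n k : ℕ} (hk : 1 ≤ k) (β : Fin n → Fin k) (f : (Fin n → ℤˣ) → ℝ)
    (hf : ∀ S : Finset (Fin n), fourierCoeff f S ≠ 0 → ∀ b : Fin k, (S.filter (fun i => β i = b)).card = 1)
    (hV : 0 < variance f) :
    variance f ≤ 2 * Real.sqrt k * (k : ℝ) ^ (20000000 * (1 + Real.log (supNorm f ^ 2 / variance f))) *
      supNorm f * maxDerivNorm f := by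
  have hs : 0 < supNorm f := by
    rcases (supNorm_nonneg f).lt_or_eq with h | h
    · exact h
    · exfalso
      have h0 : ∀ x, f x = 0 := by
        intro x
        have := le_supNorm f x
        rw [← h] at this
        exact abs_nonpos_iff.mp this
      have : variance f = 0 := by
        unfold variance; simp [h0]
      linarith
  have hk0 : (0 : ℝ) < k := by exact_mod_cast hk
  obtain ⟨s, hsdef⟩ : ∃ s, s = supNorm f := ⟨_, rfl⟩
  rw [← hsdef] at hs ⊢
  have hVg : variance (fun x => f x / s) = variance f / s ^ 2 := variance_div f s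
  have hg : ∀ S : Finset (Fin n), Pool.Agent.Helper11.Cube.coef (fun x => f x / s) S ≠ 0 →
      ∀ b : Fin k, (S.filter (fun i => β i = b)).card = 1 := by
    intro S hS
    apply hf S
    intro h0
    apply hS
    have h1 : Pool.Agent.Helper11.Cube.coef (fun x => f x / s) S = fourierCoeff f S / s := by
      unfold Pool.Agent.Helper11.Cube.coef Pool.Agent.Helper11.Cube.ex Pool.Agent.Helper11.Cube.chi
        Pool.Agent.Helper11.AA.fourierCoeff
      rw [div_right_comm, Finset.sum_div, Finset.sum_div, Finset.sum_div]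
      refine Finset.sum_congr rfl fun x _ => ?_
      ring
    rw [h1, h0, zero_div]
  have hg1 : ∀ x, |f x / s| ≤ 1 := by
    intro x
    rw [abs_div, abs_of_pos hs, div_le_one hs, hsdef]
    exact le_supNorm f x
  obtain ⟨j, hj⟩ := BMP.bm_influence (β := β) hk hg hg1 (by rw [hVg]; positivity)
  have hder : Pool.Agent.Helper11.Cube.ex (fun x => discreteDeriv j (fun x => f x / s) x ^ 2) ≤
      (maxDerivNorm f / s) ^ 2 := by
    have h2 : ∀ x, discreteDeriv j (fun x => f x / s) x ^ 2 = discreteDeriv j f x ^ 2 / s ^ 2 := by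
      intro x; unfold discreteDeriv; rw [← sub_div]; ring
    simp_rw [h2]
    have h3 : Pool.Agent.Helper11.Cube.ex (fun x => discreteDeriv j f x ^ 2 / s ^ 2) =
        derivNorm j f ^ 2 / s ^ 2 := by
      rw [derivNorm_sq]
      unfold Pool.Agent.Helper11.Cube.ex
      rw [← Finset.sum_div]
      ring
    rw [h3, div_pow]
    have h4 := derivNorm_le f j
    have h5 := derivNorm_nonneg f j
    gcongr
  have h6 := le_trans hj hder
  rw [hVg] at h6
  obtain ⟨V, hVdef⟩ : ∃ V, V = variance f := ⟨_, rfl⟩
  rw [← hVdef] at h6 hV ⊢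
  have h7 : 1 / (V / s ^ 2) = s ^ 2 / V := by field_simp
  rw [h7] at h6
  obtain ⟨L, hL⟩ : ∃ L, L = 1 + Real.log (s ^ 2 / V) := ⟨_, rfl⟩
  rw [← hL] at h6 ⊢
  have h8 : (V / s ^ 2) ^ 2 / (4 * (k : ℝ)) * (k : ℝ) ^ (-(40000000 * L)) =
      (V / s ^ 2 / (2 * Real.sqrt k) * (k : ℝ) ^ (-(20000000 * L))) ^ 2 := by
    have e1 : (k : ℝ) ^ (-(40000000 * L)) = ((k : ℝ) ^ (-(20000000 * L))) ^ 2 := by
      rw [← Real.rpow_natCast ((k : ℝ) ^ (-(20000000 * L))) 2, ← Real.rpow_mul hk0.le]
      congr 1
      push_cast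
      ring
    have e2 : (Real.sqrt k) ^ 2 = k := Real.sq_sqrt hk0.le
    rw [e1, mul_pow, div_pow (V / s ^ 2) (2 * Real.sqrt k) 2, mul_pow 2 (Real.sqrt k) 2, e2]
    norm_num
  rw [h8] at h6
  have h9 : V / s ^ 2 / (2 * Real.sqrt k) * (k : ℝ) ^ (-(20000000 * L)) ≤ maxDerivNorm f / s := by
    apply le_of_sq_le_sq h6
    exact div_nonneg (maxDerivNorm_nonneg f) hs.le
  rw [Real.rpow_neg hk0.le] at h9
  have hP : 0 < (k : ℝ) ^ (20000000 * L) := by positivity
  have hq : 0 < Real.sqrt k := Real.sqrt_pos.mpr hk0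
  have h10 : V / s ^ 2 / (2 * Real.sqrt k) * ((k : ℝ) ^ (20000000 * L))⁻¹ =
      V / (s ^ 2 * (2 * Real.sqrt k) * (k : ℝ) ^ (20000000 * L)) := by
    field_simp
  rw [h10, div_le_div_iff₀ (by positivity) hs] at h9
  have h11 : V * s ≤ (2 * Real.sqrt k * (k : ℝ) ^ (20000000 * L) * s * maxDerivNorm f) * s := by
    refine le_trans h9 (le_of_eq ?_)
    ring
  exact le_of_mul_le_mul_right h11 hs

end Pool.Agent.Results.MP_f992e4_an.BlockMultilinear
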