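import Pool.Agent.BMV.FinC
import Pool.Agent.Helper11.AAQuantities

/-!
The Aaronson-Ambainis conjecture for block-multilinear functions: polynomial in the degree and in the variance.

Proof (project BMV, paper proof in the headers of the modules): a free energy `Psi`, maximised over a distribution of
mass `m` on the monomials, dual charges `k` and auxiliary masses `j`.  For one block it is at most `2 θ^α`, for `θ = k M²`
it is at least `Var/2`, and revealing a suitable block decreases its maximum `G` at most by the factor `1 - C/t`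
(`t` blocks), by comparing three experiments: uniform signs, uniform signs with corrected charges, and signs with
means `sin φ_i`, `φ` a Gaussian field with covariance `η N + η' O² + η'' R`.
-/

namespace Pool.Agent.Results.MP_f992e4_an.BlockMultilinearAA

open Finset Pool.Agent.Helper11.AA

lemma variance_div {n : ℕ} (f : (Fin n → ℤˣ) → ℝ) (s : ℝ) :
    variance (fun x => f x / s) = variance f / s ^ 2 := by
  unfold variance
  have h1 : ∀ x, (f x / s) ^ 2 = f x ^ 2 / s ^ 2 := fun x => div_pow _ _ _
  simp_rw [h1, ← Finset.sum_div]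
  ring

/-- **Main result.** `β i` is the block of the variable `i`; every monomial of `f` contains exactly one
variable of each of the `k` blocks. -/
theorem result : ∃ C : ℕ, 0 < C ∧ ∀ (n k : ℕ) (β : Fin n → Fin k) (f : (Fin n → ℤˣ) → ℝ), 1 ≤ k →
    (∀ S : Finset (Fin n), fourierCoeff f S ≠ 0 → ∀ b : Fin k, (S.filter (fun i => β i = b)).card = 1) →
    0 < variance f →
    supNorm f * (variance f / (2 * k * supNorm f ^ 2)) ^ C ≤ maxDerivNorm f := by
  obtain ⟨C, hC, H⟩ := BMV.finC
  refine ⟨C, hC, fun n k β f hk hf hV => ?_⟩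
  have hs : 0 < supNorm f := by
    rcases (supNorm_nonneg f).lt_or_eq with h | h
    · exact h
    · exfalso
      have h0 : ∀ x, f x = 0 := by
        intro x
        have := le_supNorm f x
        rw [← h] at this
        exact abs_nonpos_iff.mp this
      have : variance f = 0 := by
        unfold variance; simp [h0]
      linarith
  have hk0 : (0 : ℝ) < k := by exact_mod_cast hk
  have hk1 : (1 : ℝ) ≤ k := by exact_mod_cast hk
  obtain ⟨s, hsdef⟩ : ∃ s, s = supNorm f := ⟨_, rfl⟩
  rw [← hsdef] at hs ⊢
  have hVg : variance (fun x => f x / s) = variance f / s ^ 2 := variance_div f s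
  have hg : ∀ S : Finset (Fin n), Pool.Agent.Helper11.Cube.coef (fun x => f x / s) S ≠ 0 →
      ∀ b : Fin k, (S.filter (fun i => β i = b)).card = 1 := by
    intro S hS
    apply hf S
    intro h0
    apply hS
    have h1 : Pool.Agent.Helper11.Cube.coef (fun x => f x / s) S = fourierCoeff f S / s := by
      unfold Pool.Agent.Helper11.Cube.coef Pool.Agent.Helper11.Cube.ex Pool.Agent.Helper11.Cube.chi
        Pool.Agent.Helper11.AA.fourierCoeff
      rw [div_right_comm, Finset.sum_div, Finset.sum_div, Finset.sum_div]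
      refine Finset.sum_congr rfl fun x _ => ?_
      ring
    rw [h1, h0, zero_div]
  have hg1 : ∀ x, |f x / s| ≤ 1 := by
    intro x
    rw [abs_div, abs_of_pos hs, div_le_one hs, hsdef]
    exact le_supNorm f x
  obtain ⟨j, hj⟩ := H n k (fun x => f x / s) β hk hg hg1 (by rw [hVg]; positivity)
  have hder : Pool.Agent.Helper11.Cube.ex (fun x => discreteDeriv j (fun x => f x / s) x ^ 2) ≤
      (maxDerivNorm f / s) ^ 2 := by
    have h2 : ∀ x, discreteDeriv j (fun x => f x / s) x ^ 2 = discreteDeriv j f x ^ 2 / s ^ 2 := by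
      intro x; unfold discreteDeriv; rw [← sub_div]; ring
    simp_rw [h2]
    have h3 : Pool.Agent.Helper11.Cube.ex (fun x => discreteDeriv j f x ^ 2 / s ^ 2) =
        derivNorm j f ^ 2 / s ^ 2 := by
      rw [derivNorm_sq]
      unfold Pool.Agent.Helper11.Cube.ex
      rw [← Finset.sum_div]
      ring
    rw [h3, div_pow]
    have h4 := derivNorm_le f j
    have h5 := derivNorm_nonneg f j
    gcongr
  have h6 := le_trans hj hder
  rw [hVg] at h6
  -- `x = V/(2 k s²) ≤ 1`
  have hVs : variance f ≤ s ^ 2 := by
    unfold variance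
    have h1 : (∑ x : Fin n → ℤˣ, f x ^ 2) / (2 : ℝ) ^ n ≤ s ^ 2 := by
      rw [div_le_iff₀ (by positivity)]
      have h2 : ∑ x : Fin n → ℤˣ, f x ^ 2 ≤ ∑ _x : Fin n → ℤˣ, s ^ 2 := by
        refine Finset.sum_le_sum fun x _ => ?_
        have h3 := le_supNorm f x
        rw [← hsdef] at h3
        rw [← sq_abs (f x)]
        gcongr
      refine le_trans h2 (le_of_eq ?_)
      rw [Finset.sum_const, Finset.card_univ, Fintype.card_fun, Fintype.card_fin, nsmul_eq_mul]
      rw [show Fintype.card ℤˣ = 2 from rfl]
      push_cast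
      ring
    have h2 := sq_nonneg ((∑ x : Fin n → ℤˣ, f x) / (2 : ℝ) ^ n)
    linarith
  obtain ⟨x, hx⟩ : ∃ x, x = variance f / (2 * k * s ^ 2) := ⟨_, rfl⟩
  have hx0 : 0 ≤ x := by rw [hx]; positivity
  have hx1 : x ≤ 1 := by
    rw [hx, div_le_one (by positivity)]
    nlinarith [sq_nonneg s]
  have e1 : variance f / s ^ 2 / (2 * (k : ℝ)) = x := by
    rw [hx, div_div]
    congr 1
    ring
  rw [e1] at h6
  rw [← hx]
  have h7 : (x ^ C) ^ 2 ≤ (maxDerivNorm f / s) ^ 2 := by
    refine le_trans ?_ h6
    have h8 : 0 ≤ x ^ C := pow_nonneg hx0 C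
    have h9 : x ^ C ≤ 1 := pow_le_one₀ hx0 hx1
    nlinarith
  have h8 : x ^ C ≤ maxDerivNorm f / s :=
    le_of_sq_le_sq h7 (div_nonneg (maxDerivNorm_nonneg f) hs.le)
  rw [le_div_iff₀ hs] at h8
  linarith

end Pool.Agent.Results.MP_f992e4_an.BlockMultilinearAA
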