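import Mathlib
import Pool.Agent.Helper94.HT.Rec

/-!
The inequality of Q1 for functions computed by trees with low-degree polynomial branching
probabilities (in particular for hybrid quantum-classical algorithms).
-/

namespace Pool.Agent.Results.MP_f992e4_an.HybridTrees

open Pool.Agent.Helper11.AA Pool.Agent.Helper94.HT

theorem result {n r k : ℕ} (hr : 1 ≤ r) (hk : 1 ≤ k) {f : (Fin n → ℤˣ) → ℝ}
    (hf : TreeFn n r k f) :
    (∀ g : (Fin n → ℤˣ) → ℝ,
      |(∑ x, f x * g x) / (2 : ℝ) ^ n - (∑ x, f x) / (2 : ℝ) ^ n * ((∑ x, g x) / (2 : ℝ) ^ n)|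
        ≤ (100 * k * r : ℝ) ^ (100 * r ^ 2) * maxDerivNorm g) ∧
    variance f ≤ (100 * k * r : ℝ) ^ (100 * r ^ 2) * maxDerivNorm f := by
  refine ⟨fun g => cov_le' hr hk hf g, ?_⟩
  refine le_trans (le_of_eq ?_) ((le_abs_self _).trans (cov_le' hr hk hf f))
  rw [variance_eq, sq (Pool.Agent.Helper11.Cube.ex f)]
  simp_rw [sq]

end Pool.Agent.Results.MP_f992e4_an.HybridTrees
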