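import Mathlib
import Pool.Agent.AA2.Main

/-!
A quasi-polynomial bound in the Aaronson-Ambainis problem, exponent 2.
-/

namespace Pool.Agent.Kept.MP_f992e4_an.QuasiPolynomial

open Pool.Agent.Helper11.AA Pool.Agent.Helper11.Cube Pool.Agent.SUB Pool.Agent.AA2

lemma variance_div {n : ℕ} (f : Cube n → ℝ) (s : ℝ) :
    variance (fun x => f x / s) = variance f / s ^ 2 := by
  unfold variance
  have h1 : ∀ x, (f x / s) ^ 2 = f x ^ 2 / s ^ 2 := fun x => div_pow _ _ _
  simp_rw [h1, ← Finset.sum_div]
  ring

lemma maxDerivNorm_div {n : ℕ} (f : Cube n → ℝ) {s : ℝ} (hs : 0 < s) :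
    maxDerivNorm (fun x => f x / s) = maxDerivNorm f / s := by
  unfold maxDerivNorm
  have h1 : ∀ j : Fin n, derivNorm j (fun x => f x / s) = derivNorm j f * s⁻¹ := by
    intro j
    unfold derivNorm
    have h2 : ∀ x, discreteDeriv j (fun x => f x / s) x ^ 2 = discreteDeriv j f x ^ 2 / s ^ 2 := by
      intro x; unfold discreteDeriv; rw [← sub_div]; ring
    simp_rw [h2, ← Finset.sum_div]
    rw [div_right_comm, Real.sqrt_div', Real.sqrt_sq hs.le]
    · rfl
    · positivity
  simp_rw [h1]
  rw [← Real.iSup_mul_of_nonneg (inv_nonneg.mpr hs.le)]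
  rfl

theorem result {n d : ℕ} (hd : 1 ≤ d) {f : (Fin n → ℤˣ) → ℝ} (hf : DegreeAtMost f d)
    (hV : 0 < variance f) :
    supNorm f *
        Real.exp (-(2048 * Real.log (2 * d) * Real.log (2 * d * supNorm f ^ 2 / variance f))) ≤
      maxDerivNorm f := by
  have hs : 0 < supNorm f := by
    rcases (supNorm_nonneg f).lt_or_eq with h | h
    · exact h
    · exfalso
      have h0 : ∀ x, f x = 0 := by
        intro x
        have := le_supNorm f x
        rw [← h] at this
        exact abs_nonpos_iff.mp this
      have : variance f = 0 := by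
        unfold variance; simp [h0]
      linarith
  set s := supNorm f with hsdef
  set g : (Fin n → ℤˣ) → ℝ := fun x => f x / s with hg
  have hgB : Bdd d g := by
    refine ⟨?_, ?_⟩
    · rw [← degreeAtMost_iff]
      intro S hS
      have := hf S hS
      simp only [hg, div_mul_eq_mul_div, ← Finset.sum_div, this, zero_div]
    · intro x
      rw [hg]
      simp only [abs_div, abs_of_pos hs]
      rw [div_le_one hs]
      exact le_supNorm f x
  have hvg : variance g = variance f / s ^ 2 := variance_div f s
  have hvg0 : 0 < variance g := by rw [hvg]; positivity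
  have h1 := quad_bound hd hgB hvg0
  rw [hvg, maxDerivNorm_div f hs, le_div_iff₀ hs] at h1
  have h2 : (2 * (d : ℝ) / (variance f / s ^ 2)) = 2 * d * s ^ 2 / variance f := by
    field_simp
  rw [h2] at h1
  linarith

end Pool.Agent.Kept.MP_f992e4_an.QuasiPolynomial
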